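import Pool.Agent.H58.SMP

namespace Pool.Agent.Results.MP_267b52_gt.Disproof
open Pool.Agent.H58.Harm Set Filter Topology Metric
open scoped ContDiff

lemma proj_eq {p q : ℝ × ℝ} : proj p = proj q ↔ ∃ k l : ℤ, q.1 - p.1 = k ∧ q.2 - p.2 = l := by
  simp only [proj, Prod.mk.injEq, QuotientAddGroup.eq, AddSubgroup.mem_zmultiples_iff,
    zsmul_eq_mul, mul_one, neg_add_eq_sub, exists_and_left, exists_and_right, eq_comm]

lemma irr {k l : ℤ} (h : (l : ℝ) = √2 * k) : k = 0 := by
  by_contra hk
  exact (irrational_sqrt_two.mul_intCast hk).ne_int l h.symm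

lemma cpd {m : ℕ} {f : EuclideanSpace ℝ (Fin m) → ℝ} {W : Set (EuclideanSpace ℝ (Fin m))}
    (hW : IsOpen W) (hf : ContDiffOn ℝ 1 f W) (i : Fin m) : ContinuousOn (pd f i) W :=
  (hf.continuousOn_fderiv_of_isOpen hW le_rfl).clm_apply continuousOn_const

theorem result : ∃ V : Set (UnitAddCircle × UnitAddCircle),
    (∀ (m : ℕ) (M : Type) [TopologicalSpace M] [ChartedSpace (EuclideanSpace ℝ (Fin m)) M]
      [IsManifold (modelWithCornersSelf ℝ (EuclideanSpace ℝ (Fin m))) ∞ M] [T2Space M]
      [CompactSpace M] [ConnectedSpace M]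
      (g : M → EuclideanSpace ℝ (Fin m) → Matrix (Fin m) (Fin m) ℝ)
      (φ : M → UnitAddCircle × UnitAddCircle),
      IsMetric g → IsHarmonic g φ → (∀ x, φ x ∈ V) → ∀ x y, φ x = φ y) ∧
    ¬∃ (U : Set (UnitAddCircle × UnitAddCircle)) (f : UnitAddCircle × UnitAddCircle → ℝ),
      IsOpen U ∧ V ⊆ U ∧ ContDiffOn ℝ 2 (f ∘ proj) (proj ⁻¹' U) ∧
      ∀ p ∈ proj ⁻¹' U, ∀ w : ℝ × ℝ, w ≠ 0 → 0 < fderiv ℝ (fderiv ℝ (f ∘ proj)) p w w := by
  refine ⟨range fun t => proj (t, √2 * t), fun m M _ _ _ _ _ _ g φ hg hφ hV => ?_, ?_⟩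
  · choose T hT using hV
    have loc : ∀ x, ContinuousAt T x ∧ ((∀ y, T y ≤ T x) → ∀ᶠ y in 𝓝 x, T y = T x) := fun x => by
      obtain ⟨W, u, v, hW, hx, hWt, hu, hv, h⟩ := hφ x
      obtain ⟨r, r0, hr⟩ := Metric.isOpen_iff.1 hW _ hx
      set c := chartAt (EuclideanSpace ℝ (Fin m)) x
      choose! k l hk hl using fun y hy => proj_eq.1 ((hT _).trans (h y hy).1)
      simp only at hk hl
      have e1 : ∀ y ∈ W, v y - √2 * u y = l y - √2 * k y := fun y hy => by
        rw [← hk y hy, ← hl y hy]; ring
      have cn : (range fun a : ℤ × ℤ => (a.2 : ℝ) - √2 * a.1).Countable := countable_range _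
      have e2 := cn.isTotallyDisconnected _
        (image_subset_iff.2 fun y hy => ⟨(k y, l y), (e1 y (hr hy)).symm⟩)
        ((convex_ball (c x) r).isPreconnected.image (fun y => v y - √2 * u y)
          ((hv.continuousOn.sub (hu.continuousOn.const_mul _)).mono hr))
      have e3 : ∀ y ∈ ball (c x) r, T (c.symm y) = u y - k (c x) := fun y hy => by
        have := e2 (mem_image_of_mem _ hy) (mem_image_of_mem _ (mem_ball_self r0))
        simp only [e1 y (hr hy), e1 _ hx] at this
        have := irr (k := k y - k (c x)) (l := l y - l (c x)) (by push_cast; linarith)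
        rw [← sub_eq_zero.1 this, ← hk y (hr hy)]; ring
      have ct : ContinuousAt c x := c.continuousAt (mem_chart_source _ x)
      have e4 : ∀ᶠ y in 𝓝 x, T y = u (c y) - k (c x) := by
        filter_upwards [ct.eventually (ball_mem_nhds _ r0), chart_source_mem_nhds (EuclideanSpace ℝ (Fin m)) x]
           with y h1 h2
        rw [← e3 _ h1, c.left_inv h2]
      refine ⟨ContinuousAt.congr (((hu.continuousOn.continuousAt (hW.mem_nhds hx)).comp ct).sub
        continuousAt_const) (e4.mono fun y hy => hy.symm), fun hmax => ?_⟩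
      have sub := hr.trans hWt
      have cg : ∀ i j, ContDiffOn ℝ 1 (g x · i j) (ball (c x) r) := fun i j => ((hg x).1 i j).mono sub
      have ci : ∀ i j, ContinuousOn (fun y => (g x y)⁻¹ i j) (ball (c x) r) := fun i j y hy => by
        have a : ContinuousWithinAt (g x) (ball (c x) r) y := continuousWithinAt_pi.2 fun i =>
          continuousWithinAt_pi.2 fun j => (cg i j).continuousOn y hy
        have b := continuousAt_matrix_inv (g x y) (by
          rw [Ring.inverse_eq_inv']
          exact continuousAt_inv₀ ((hg x).2 y (sub hy)).det_pos.ne')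
        exact continuousWithinAt_pi.1 (continuousWithinAt_pi.1 (b.comp_continuousWithinAt a) i) j
      have := smp isOpen_ball (hu.mono hr) (a := fun y => (g x y)⁻¹)
        (b := fun y k => -∑ i, ∑ j, (g x y)⁻¹ i j * chris (g x) k i j y) ci
        (fun k => (continuousOn_finsetSum _ fun i _ => continuousOn_finsetSum _ fun j _ =>
          (ci i j).mul ((continuousOn_finsetSum _ fun l _ => (ci k l).mul
            (((cpd isOpen_ball (cg j l) i).add (cpd isOpen_ball (cg i l) j)).sub
              (cpd isOpen_ball (cg i j) l))).div_const 2)).neg)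
        (fun y hy => ((hg x).2 y (sub hy)).inv) (fun y hy => by
          rw [← (h y (hr hy)).2.1, lapl]
          simp only [mul_sub, Finset.sum_sub_distrib, neg_mul, Finset.sum_neg_distrib,
            Finset.sum_mul, Finset.mul_sum, mul_assoc, ← sub_eq_add_neg]
          congr 1
          rw [Finset.sum_comm]
          exact Finset.sum_congr rfl fun i _ => Finset.sum_comm) (mem_ball_self r0) fun y hy => by
          linarith [e3 y hy, hmax (c.symm y), e4.self_of_nhds]
      filter_upwards [e4, ct.eventually this] with y h1 h2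
      rw [h1, h2, e4.self_of_nhds]
    have cT : Continuous T := continuous_iff_continuousAt.2 fun x => (loc x).1
    obtain ⟨x₀, -, hx₀⟩ := isCompact_univ.exists_isMaxOn univ_nonempty cT.continuousOn
    have : {y | T y = T x₀} = univ := IsClopen.eq_univ ⟨isClosed_eq cT continuous_const,
      isOpen_iff_mem_nhds.2 fun y hy => ((loc y).2 fun z => (hx₀ trivial).trans_eq
        (Eq.symm hy)).mono fun z hz => hz.trans hy⟩ ⟨x₀, rfl⟩
    intro x y
    rw [← hT, ← hT, eq_univ_iff_forall.1 this x, eq_univ_iff_forall.1 this y]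
  · rintro ⟨U, f, hU, hV, hf, hH⟩
    have op : IsOpen (proj ⁻¹' U) := hU.preimage (by unfold proj; fun_prop)
    have mem : ∀ t : ℝ, (t, √2 * t) ∈ proj ⁻¹' U := fun t => hV ⟨t, rfl⟩
    have at2 := fun t => hf.contDiffAt (op.mem_nhds (mem t))
    have l : ∀ t : ℝ, HasDerivAt (fun t : ℝ => (t, √2 * t)) (1, √2) t := fun t => by
      simpa using (hasDerivAt_id t).prodMk ((hasDerivAt_id t).const_mul √2)
    have d1 : ∀ t : ℝ, HasDerivAt (fun t : ℝ => (f ∘ proj) (t, √2 * t))
        (fderiv ℝ (f ∘ proj) (t, √2 * t) (1, √2)) t := fun t =>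
      ((at2 t).differentiableAt (by simp)).hasFDerivAt.comp_hasDerivAt t (l t)
    have cv : StrictConvexOn ℝ univ fun t : ℝ => (f ∘ proj) (t, √2 * t) := by
      refine strictConvexOn_univ_of_deriv2_pos
        (continuous_iff_continuousAt.2 fun t => (d1 t).continuousAt) fun t => ?_
      have := ((((at2 t).fderiv_right (m := 1) (by norm_num)).differentiableAt
        (by simp)).hasFDerivAt.comp_hasDerivAt t (l t)).clm_apply (hasDerivAt_const t (1, √2))
      simp only [Function.iterate_succ, Function.iterate_zero, Function.comp_apply, id,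
        map_zero, add_zero] at this ⊢
      have e := funext fun t => (d1 t).deriv
      simp only [Function.comp_apply] at e
      rw [e, this.deriv]
      exact hH _ (mem t) _ (by simp)
    set G : ℝ → ℝ := fun t => (f ∘ proj) (t, √2 * t) with hG
    have p : G 0 < (1 / 2 : ℝ) • G 1 + (1 / 2 : ℝ) • G (-1) := by
      simpa using cv.2 (x := 1) (y := -1) trivial trivial (by norm_num) one_half_pos one_half_pos
        (by norm_num)
    simp only [smul_eq_mul] at p
    have c0 : ContinuousAt (fun s : ℝ => (f ∘ proj) (0, s)) 0 := by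
      refine ContinuousAt.comp (g := f ∘ proj) ?_ (by fun_prop)
      simpa using (at2 0).continuousAt
    obtain ⟨δ, δ0, hδ⟩ := Metric.continuousAt_iff.1 c0 _ (sub_pos.2 p)
    obtain ⟨n, hn⟩ := exists_nat_one_div_lt δ0
    obtain ⟨j, k, k0, -, hk⟩ := Real.exists_int_int_abs_mul_sub_le √2 n.succ_pos
    have hk' : |k * √2 - j| < δ := hk.trans_lt (lt_trans (by push_cast; gcongr; linarith) hn)
    have k1 : (1 : ℝ) ≤ k := by exact_mod_cast k0
    have G0 : (f ∘ proj) (0, 0) = G 0 := by simp [hG]
    have a1 : G k = (f ∘ proj) (0, k * √2 - j) :=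
      congrArg f (proj_eq.2 ⟨-k, -j, by simp, by simp [mul_comm]⟩)
    have a2 : G (-k) = (f ∘ proj) (0, -(k * √2 - j)) :=
      congrArg f (proj_eq.2 ⟨k, j, by simp, by simp [mul_comm]⟩)
    have b1 := (abs_lt.1 (hδ (x := k * √2 - j) (by simpa using hk'))).2
    have b2 := (abs_lt.1 (hδ (x := -(k * √2 - j)) (by rw [dist_zero_right, norm_neg]; exact hk'))).2
    rw [G0, ← a1] at b1
    rw [G0, ← a2] at b2
    have i0 : 0 < 1 / (k : ℝ) := by positivity
    have i1 : 1 / (k : ℝ) ≤ 1 := by rw [div_le_one (by linarith)]; exact k1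
    have c1 := cv.convexOn.2 (x := k) (y := 0) trivial trivial i0.le (sub_nonneg.2 i1) (by ring)
    have c2 := cv.convexOn.2 (x := -k) (y := 0) trivial trivial i0.le (sub_nonneg.2 i1) (by ring)
    simp only [smul_eq_mul, mul_zero, add_zero, mul_neg,
      one_div_mul_cancel (by linarith : (k : ℝ) ≠ 0)] at c1 c2
    nlinarith

end Pool.Agent.Results.MP_267b52_gt.Disproof
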